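import Mathlib
import Pool.Agent.H759R2.Kad.Props3

open scoped ComplexOrder InnerProductSpace ComplexConjugate
open Finset

noncomputable section

namespace H759R2.Kad.A27

universe u v

variable {B : Type u} [CStarAlgebra B] [PartialOrder B] [StarOrderedRing B]
variable {K : Type v} [NormedAddCommGroup K] [InnerProductSpace ℂ K] [CompleteSpace K]

/-- Flattening of matrices of matrices. -/
def flatFun (m L : ℕ) (X : CStarMatrix (Fin m) (Fin m) (CStarMatrix (Fin L) (Fin L) B)) :
    CStarMatrix (Fin (m * L)) (Fin (m * L)) B :=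
  CStarMatrix.ofMatrix fun p q =>
    X (finProdFinEquiv.symm p).1 (finProdFinEquiv.symm q).1
      (finProdFinEquiv.symm p).2 (finProdFinEquiv.symm q).2

omit [PartialOrder B] [StarOrderedRing B] in
theorem flatFun_apply (m L : ℕ) (X : CStarMatrix (Fin m) (Fin m) (CStarMatrix (Fin L) (Fin L) B))
    (p q : Fin (m * L)) : flatFun m L X p q =
    X (finProdFinEquiv.symm p).1 (finProdFinEquiv.symm q).1
      (finProdFinEquiv.symm p).2 (finProdFinEquiv.symm q).2 := rfl

omit [PartialOrder B] [StarOrderedRing B] in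
theorem sum_apply2 {L : ℕ} {J : Type*} (s : Finset J) (f : J → CStarMatrix (Fin L) (Fin L) B)
    (i j : Fin L) : (∑ x ∈ s, f x) i j = ∑ x ∈ s, f x i j := by
  classical
  induction s using Finset.induction_on with
  | empty => simp
  | insert a s ha ih => rw [Finset.sum_insert ha, Finset.sum_insert ha, CStarMatrix.add_apply, ih]

/-- Flattening as a homomorphism. -/
def flat (B : Type u) [CStarAlgebra B] [PartialOrder B] [StarOrderedRing B] (m L : ℕ) :
    CStarMatrix (Fin m) (Fin m) (CStarMatrix (Fin L) (Fin L) B) →⋆ₐ[ℂ]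
      CStarMatrix (Fin (m * L)) (Fin (m * L)) B where
  toFun := flatFun m L
  map_one' := by
    ext p q
    rw [flatFun_apply, CStarMatrix.one_apply, CStarMatrix.one_apply]
    by_cases h : p = q
    · subst h
      simp
    · rw [if_neg h]
      by_cases h1 : (finProdFinEquiv.symm p).1 = (finProdFinEquiv.symm q).1
      · rw [if_pos h1, CStarMatrix.one_apply, if_neg]
        intro h2
        exact h (finProdFinEquiv.symm.injective (Prod.ext h1 h2))
      · rw [if_neg h1]
        rfl
  map_mul' X Y := by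
    ext p q
    rw [flatFun_apply, CStarMatrix.mul_apply, CStarMatrix.mul_apply, sum_apply2]
    rw [← Equiv.sum_comp (finProdFinEquiv (m := m) (n := L)), Fintype.sum_prod_type]
    refine Finset.sum_congr rfl fun j _ => ?_
    rw [CStarMatrix.mul_apply]
    refine Finset.sum_congr rfl fun b _ => ?_
    rw [flatFun_apply, flatFun_apply]
    simp
  map_zero' := rfl
  map_add' X Y := rfl
  commutes' c := by
    ext p q
    rw [flatFun_apply, CStarMatrix.algebraMap_apply, CStarMatrix.algebraMap_apply]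
    by_cases h : p = q
    · subst h
      simp [CStarMatrix.algebraMap_apply]
    · rw [if_neg h]
      by_cases h1 : (finProdFinEquiv.symm p).1 = (finProdFinEquiv.symm q).1
      · rw [if_pos h1, CStarMatrix.algebraMap_apply, if_neg]
        intro h2
        exact h (finProdFinEquiv.symm.injective (Prod.ext h1 h2))
      · rw [if_neg h1]
        rfl
  map_star' X := by
    ext p q
    rw [flatFun_apply, CStarMatrix.star_apply, CStarMatrix.star_apply, CStarMatrix.star_apply,
      flatFun_apply]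

theorem flat_apply (m L : ℕ) (X : CStarMatrix (Fin m) (Fin m) (CStarMatrix (Fin L) (Fin L) B))
    (p q : Fin (m * L)) : flat B m L X p q =
    X (finProdFinEquiv.symm p).1 (finProdFinEquiv.symm q).1
      (finProdFinEquiv.symm p).2 (finProdFinEquiv.symm q).2 := rfl

theorem norm_flat_le (m L : ℕ)
    (X : CStarMatrix (Fin m) (Fin m) (CStarMatrix (Fin L) (Fin L) B)) :
    ‖flat B m L X‖ ≤ ‖X‖ :=
  NonUnitalStarAlgHom.norm_apply_le (flat B m L) X

/-- Flattening of vectors. -/
def flatv (m L : ℕ) (ξ : HH (Fin m) (HH (Fin L) K)) : HH (Fin (m * L)) K :=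
  WithLp.toLp 2 fun p => ξ (finProdFinEquiv.symm p).1 (finProdFinEquiv.symm p).2

omit [InnerProductSpace ℂ K] [CompleteSpace K] in
theorem flatv_apply (m L : ℕ) (ξ : HH (Fin m) (HH (Fin L) K)) (p : Fin (m * L)) :
    flatv m L ξ p = ξ (finProdFinEquiv.symm p).1 (finProdFinEquiv.symm p).2 := rfl

omit [InnerProductSpace ℂ K] [CompleteSpace K] in
theorem norm_flatv (m L : ℕ) (ξ : HH (Fin m) (HH (Fin L) K)) : ‖flatv m L ξ‖ = ‖ξ‖ := by
  rw [PiLp.norm_eq_of_L2, PiLp.norm_eq_of_L2]
  congr 1
  rw [← Equiv.sum_comp (finProdFinEquiv (m := m) (n := L)), Fintype.sum_prod_type]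
  refine Finset.sum_congr rfl fun j _ => ?_
  rw [PiLp.norm_sq_eq_of_L2]
  refine Finset.sum_congr rfl fun b _ => ?_
  rw [flatv_apply]
  simp

omit [PartialOrder B] [StarOrderedRing B] [CompleteSpace K] in
theorem flatv_amp (m L : ℕ) (w : B →ₗ[ℂ] (K →L[ℂ] K))
    (X : CStarMatrix (Fin m) (Fin m) (CStarMatrix (Fin L) (Fin L) B))
    (ξ : HH (Fin m) (HH (Fin L) K)) :
    flatv m L (amp (amp w (Fin L)) (Fin m) X ξ) =
      amp w (Fin (m * L)) (flatFun m L X) (flatv m L ξ) := by
  ext p
  rw [flatv_apply, amp_apply, amp_apply]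
  rw [← Equiv.sum_comp (finProdFinEquiv (m := m) (n := L)), Fintype.sum_prod_type]
  have : (∑ j, (amp w (Fin L)) (X (finProdFinEquiv.symm p).1 j) (ξ j)) (finProdFinEquiv.symm p).2
      = ∑ j, ((amp w (Fin L)) (X (finProdFinEquiv.symm p).1 j) (ξ j))
        (finProdFinEquiv.symm p).2 := by
    simp
  rw [this]
  refine Finset.sum_congr rfl fun j _ => ?_
  rw [amp_apply]
  refine Finset.sum_congr rfl fun b _ => ?_
  rw [flatFun_apply, flatv_apply]
  simp

end H759R2.Kad.A27

namespace H759R2.Kad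

universe u v

theorem prove3_nest : K_nest.{u, v} := by
  intro B _ _ _ K _ _ _ w L m C hC h X
  refine ContinuousLinearMap.opNorm_le_bound _ (mul_nonneg hC (norm_nonneg _)) fun ξ => ?_
  have h1 : ‖amp (amp w (Fin L)) (Fin m) X ξ‖ =
      ‖amp w (Fin (m * L)) (A27.flat B m L X) (A27.flatv m L ξ)‖ := by
    rw [← A27.norm_flatv m L (amp (amp w (Fin L)) (Fin m) X ξ), A27.flatv_amp]
    rfl
  rw [h1]
  calc ‖amp w (Fin (m * L)) (A27.flat B m L X) (A27.flatv m L ξ)‖
      ≤ ‖amp w (Fin (m * L)) (A27.flat B m L X)‖ * ‖A27.flatv m L ξ‖ :=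
        ContinuousLinearMap.le_opNorm _ _
    _ ≤ (C * ‖A27.flat B m L X‖) * ‖A27.flatv m L ξ‖ :=
        mul_le_mul_of_nonneg_right (h _) (norm_nonneg _)
    _ ≤ (C * ‖X‖) * ‖ξ‖ := by
        rw [A27.norm_flatv]
        exact mul_le_mul_of_nonneg_right
          (mul_le_mul_of_nonneg_left (A27.norm_flat_le m L X) hC) (norm_nonneg _)

end H759R2.Kad
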